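import Pool.Agent.Helper15.FC.St2

/-!
# Project FC (MP_16cbc0_nt): module TXB (twisted divisor sums)
-/

set_option autoImplicit false

namespace Pool.Agent.Helper99.FC

open Pool.Agent.Helper15.FC Polynomial

noncomputable section

variable {F : Type} [Field F] [Fintype F]

omit [Fintype F] in
private theorem coprime_of_unit {r f : F[X]} (h : IsUnit (AdjoinRoot.mk r f)) : IsCoprime f r := by
  obtain ⟨y, hy⟩ := isUnit_iff_exists_inv.1 h
  obtain ⟨g, rfl⟩ := AdjoinRoot.mk_surjective y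
  rw [← map_mul, ← map_one (AdjoinRoot.mk r), AdjoinRoot.mk_eq_mk] at hy
  obtain ⟨c, hc⟩ := hy
  exact ⟨g, -c, by linear_combination hc⟩

private theorem coprime_parts {r f0 f1 : F[X]} {i j : ℕ} (h0 : f0 ∈ Sm r i) (h1 : f1 ∈ Cp r j) :
    IsCoprime f0 f1 := by
  classical
  unfold Sm at h0
  unfold Cp at h1
  obtain ⟨-, e, he⟩ := Finset.mem_filter.1 h0
  obtain ⟨-, hc⟩ := Finset.mem_filter.1 h1
  exact ((hc.pow_right (n := e)).of_isCoprime_of_dvd_right he).symm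

private theorem monic_Sm {r f : F[X]} {i : ℕ} (h : f ∈ Sm r i) : f.Monic := by
  classical
  unfold Sm at h
  exact (mem_Mn.1 (Finset.mem_filter.1 h).1).1

private theorem monic_Cp {r f : F[X]} {i : ℕ} (h : f ∈ Cp r i) : f.Monic := by
  classical
  unfold Cp at h
  exact (mem_Mn.1 (Finset.mem_filter.1 h).1).1

/-- the value of the short interval character -/
private def xv {N : ℕ} (ξ : MulChar (TN F N) ℂ) (f : F[X]) : ℂ :=
  ξ (AdjoinRoot.mk (X ^ (N + 1) : F[X]) f.reverse)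

omit [Fintype F] in
private theorem xv_mul {N : ℕ} (ξ : MulChar (TN F N) ℂ) (f g : F[X]) :
    xv ξ (f * g) = xv ξ f * xv ξ g := by
  unfold xv
  rw [reverse_mul_of_domain, map_mul, map_mul]

private theorem char_norm {R : Type} [CommRing R] [Finite R] (χ : MulChar R ℂ) (a : R) :
    ‖χ a‖ ≤ 1 := by
  by_cases h : IsUnit a
  · obtain ⟨u, rfl⟩ := h
    have h1 : IsOfFinOrder u := isOfFinOrder_of_finite u
    have h2 : χ (u : R) ^ orderOf u = 1 := by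
      rw [← map_pow, ← Units.val_pow_eq_pow_val, pow_orderOf_eq_one, Units.val_one, map_one]
    have h3 : ‖χ (u : R)‖ ^ orderOf u = 1 := by rw [← norm_pow, h2, norm_one]
    exact le_of_eq ((pow_eq_one_iff_of_nonneg (norm_nonneg _) h1.orderOf_pos.ne').1 h3)
  · rw [χ.map_nonunit h, norm_zero]
    exact zero_le_one

/-- the sum over the polynomials prime to `r` -/
private def AA (k : ℕ) (r : F[X]) (N : ℕ) (w : F[X] → ℂ) (d : ℕ) (f0 : F[X])
    (ξ : MulChar (TN F N) ℂ) : ℂ :=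
  ∑ f1 ∈ Cp r d, (dk k f1 : ℂ) * w (f0 * f1) * xv ξ f1

/-- step A: the splitting -/
private theorem split (hSPL : StSPL) (hDKM : StDKM) (k n N : ℕ) (r : F[X]) (w : F[X] → ℂ)
    (hr : r.Monic) (ξ : MulChar (TN F N) ℂ) :
    ∑ f ∈ Mn F n, (dk k f : ℂ) * w f * xv ξ f =
      ∑ i ∈ Finset.range (n + 1), ∑ f0 ∈ Sm r i,
        (dk k f0 : ℂ) * (xv ξ f0 * AA k r N w (n - i) f0 ξ) := by
  rw [hSPL F r n (fun f => (dk k f : ℂ) * w f * xv ξ f) hr]
  refine Finset.sum_congr rfl fun i _ => Finset.sum_congr rfl fun f0 h0 => ?_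
  unfold AA
  rw [Finset.mul_sum, Finset.mul_sum]
  refine Finset.sum_congr rfl fun f1 h1 => ?_
  rw [hDKM F k f0 f1 (monic_Sm h0) (monic_Cp h1) (coprime_parts h0 h1), xv_mul]
  push_cast
  ring

/-- step B: the mean square of the inner sum -/
private theorem inner_bound (hUPR : StUPR) (hORR : StORR) {k C : ℕ}
    (hC : ∀ (N : ℕ) (r : F[X]) (χ : MulChar (AdjoinRoot r) ℂ), 2 ≤ N → r.Monic →
      r.natDegree ≤ N → ∀ i : ℕ,
      ∑ ξ ∈ XiNT F N, ‖∑ f ∈ Mn F i, (dk k f : ℂ) * Hk r N χ ξ f‖ ^ 2 ≤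
        qr F ^ i * uN F N * (N : ℝ) ^ C)
    (N : ℕ) (r : F[X]) (w : F[X] → ℂ) (hN : 2 ≤ N) (hr : r.Monic) (hd : r.natDegree ≤ N)
    (hw : ∀ f, ‖w f‖ ≤ 1) (hper : ∀ f g : F[X], r ∣ f - g → w f = w g) (d : ℕ) (f0 : F[X]) :
    ∑ ξ ∈ XiNT F N, ‖AA k r N w d f0 ξ‖ ^ 2 ≤ phi r * (qr F ^ d * uN F N * (N : ℝ) ^ C) := by
  classical
  obtain ⟨c, hc1, hc2, -⟩ := hUPR F r (fun f => w (f0 * f)) hr (fun f => hw _) (fun f g h =>
    hper _ _ (by
      rw [← mul_sub]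
      exact h.mul_left f0))
  have hA : ∀ ξ : MulChar (TN F N) ℂ, AA k r N w d f0 ξ =
      ∑ χ ∈ allF (MulChar (AdjoinRoot r) ℂ), c χ *
        ∑ f ∈ Mn F d, (dk k f : ℂ) * Hk r N χ ξ f := by
    intro ξ
    have h1 : ∀ χ : MulChar (AdjoinRoot r) ℂ, ∑ f ∈ Mn F d, (dk k f : ℂ) * Hk r N χ ξ f =
        ∑ f ∈ Cp r d, (dk k f : ℂ) * Hk r N χ ξ f := by
      intro χ
      unfold Cp
      rw [Finset.sum_filter]
      refine Finset.sum_congr rfl fun f _ => ?_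
      split_ifs with h
      · rfl
      · have h2 : χ (AdjoinRoot.mk r f) = 0 := χ.map_nonunit fun hu => h (coprime_of_unit hu)
        unfold Hk
        rw [h2, zero_mul, mul_zero]
    simp only [h1, Finset.mul_sum]
    rw [Finset.sum_comm]
    unfold AA
    refine Finset.sum_congr rfl fun f hf => ?_
    have h3 : IsCoprime f r := by
      unfold Cp at hf
      exact (Finset.mem_filter.1 hf).2
    rw [hc1 f h3, Finset.mul_sum, Finset.sum_mul]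
    refine Finset.sum_congr rfl fun χ _ => ?_
    unfold Hk xv
    ring
  have hB : ∀ ξ : MulChar (TN F N) ℂ, ‖AA k r N w d f0 ξ‖ ^ 2 ≤
      ∑ χ ∈ allF (MulChar (AdjoinRoot r) ℂ),
        ‖∑ f ∈ Mn F d, (dk k f : ℂ) * Hk r N χ ξ f‖ ^ 2 := by
    intro ξ
    rw [hA ξ]
    have h4 : ‖∑ χ ∈ allF (MulChar (AdjoinRoot r) ℂ), c χ *
        ∑ f ∈ Mn F d, (dk k f : ℂ) * Hk r N χ ξ f‖ ≤
        ∑ χ ∈ allF (MulChar (AdjoinRoot r) ℂ), ‖c χ‖ *
          ‖∑ f ∈ Mn F d, (dk k f : ℂ) * Hk r N χ ξ f‖ := by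
      refine (norm_sum_le _ _).trans (le_of_eq ?_)
      exact Finset.sum_congr rfl fun χ _ => norm_mul _ _
    calc _ ≤ (∑ χ ∈ allF (MulChar (AdjoinRoot r) ℂ), ‖c χ‖ *
          ‖∑ f ∈ Mn F d, (dk k f : ℂ) * Hk r N χ ξ f‖) ^ 2 :=
          pow_le_pow_left₀ (norm_nonneg _) h4 2
      _ ≤ (∑ χ ∈ allF (MulChar (AdjoinRoot r) ℂ), ‖c χ‖ ^ 2) *
          ∑ χ ∈ allF (MulChar (AdjoinRoot r) ℂ),
            ‖∑ f ∈ Mn F d, (dk k f : ℂ) * Hk r N χ ξ f‖ ^ 2 :=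
          Finset.sum_mul_sq_le_sq_mul_sq _ _ _
      _ ≤ 1 * ∑ χ ∈ allF (MulChar (AdjoinRoot r) ℂ),
            ‖∑ f ∈ Mn F d, (dk k f : ℂ) * Hk r N χ ξ f‖ ^ 2 :=
          mul_le_mul_of_nonneg_right hc2 (Finset.sum_nonneg fun _ _ => by positivity)
      _ = _ := one_mul _
  calc ∑ ξ ∈ XiNT F N, ‖AA k r N w d f0 ξ‖ ^ 2
      ≤ ∑ ξ ∈ XiNT F N, ∑ χ ∈ allF (MulChar (AdjoinRoot r) ℂ),
        ‖∑ f ∈ Mn F d, (dk k f : ℂ) * Hk r N χ ξ f‖ ^ 2 := Finset.sum_le_sum fun ξ _ => hB ξ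
    _ = ∑ χ ∈ allF (MulChar (AdjoinRoot r) ℂ), ∑ ξ ∈ XiNT F N,
        ‖∑ f ∈ Mn F d, (dk k f : ℂ) * Hk r N χ ξ f‖ ^ 2 := Finset.sum_comm
    _ ≤ ∑ χ ∈ allF (MulChar (AdjoinRoot r) ℂ), qr F ^ d * uN F N * (N : ℝ) ^ C :=
        Finset.sum_le_sum fun χ _ => hC N r χ hN hr hd d
    _ = _ := by
        rw [Finset.sum_const, (hORR F r 1 1 hr isCoprime_one_left isCoprime_one_left).1,
          nsmul_eq_mul]

/-- **TXB** (twisted divisor sums). -/
theorem hTXB (hSPL : StSPL) (hDKM : StDKM) (hUPR : StUPR) (hDIS : StDIS) (hORR : StORR) :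
    StTXB := by
  intro F _ _ k
  obtain ⟨C, hC⟩ := hDIS F k
  refine ⟨C, ?_⟩
  intro N n r w hN hr hd hw hper
  have hq : 0 < qr F := by
    have : 0 < Fintype.card F := Fintype.card_pos
    exact_mod_cast this
  have hs : 0 < Real.sqrt (qr F) := Real.sqrt_pos.2 hq
  have hss : Real.sqrt (qr F) * Real.sqrt (qr F) = qr F := Real.mul_self_sqrt hq.le
  set t := Real.sqrt (qr F) with ht
  -- the pairs of a degree and a polynomial
  let T : Finset (Σ _ : ℕ, F[X]) := (Finset.range (n + 1)).sigma fun i => Sm r i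
  have hkap : kap k r n = ∑ x ∈ T, (dk k x.2 : ℝ) * (t⁻¹) ^ x.1 := by
    unfold kap
    exact Finset.sum_sigma' _ _ _
  have hsum : ∀ ξ : MulChar (TN F N) ℂ, ∑ f ∈ Mn F n, (dk k f : ℂ) * w f * xv ξ f =
      ∑ x ∈ T, (dk k x.2 : ℂ) * (xv ξ x.2 * AA k r N w (n - x.1) x.2 ξ) := by
    intro ξ
    rw [split hSPL hDKM k n N r w hr ξ]
    exact Finset.sum_sigma' _ _ _
  -- the Cauchy-Schwarz inequality
  have hCS : ∀ ξ : MulChar (TN F N) ℂ, ‖∑ f ∈ Mn F n, (dk k f : ℂ) * w f * xv ξ f‖ ^ 2 ≤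
      kap k r n * ∑ x ∈ T, (dk k x.2 : ℝ) * t ^ x.1 * ‖AA k r N w (n - x.1) x.2 ξ‖ ^ 2 := by
    intro ξ
    rw [hsum ξ, hkap]
    have h1 : ‖∑ x ∈ T, (dk k x.2 : ℂ) * (xv ξ x.2 * AA k r N w (n - x.1) x.2 ξ)‖ ≤
        ∑ x ∈ T, (dk k x.2 : ℝ) * ‖AA k r N w (n - x.1) x.2 ξ‖ := by
      refine (norm_sum_le _ _).trans (Finset.sum_le_sum fun x _ => ?_)
      rw [norm_mul, norm_mul, Complex.norm_natCast]
      refine mul_le_mul_of_nonneg_left ?_ (Nat.cast_nonneg _)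
      exact mul_le_of_le_one_left (norm_nonneg _) (char_norm _ _)
    refine (pow_le_pow_left₀ (norm_nonneg _) h1 2).trans ?_
    refine Finset.sum_sq_le_sum_mul_sum_of_sq_le_mul T (fun x _ => by positivity)
      (fun x _ => by positivity) (fun x _ => le_of_eq ?_)
    have h2 : (t⁻¹) ^ x.1 * t ^ x.1 = 1 := by
      rw [← mul_pow, inv_mul_cancel₀ hs.ne', one_pow]
    linear_combination (-((dk k x.2 : ℝ) ^ 2 * ‖AA k r N w (n - x.1) x.2 ξ‖ ^ 2)) * h2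
  have hkap0 : 0 ≤ kap k r n := by
    rw [hkap]
    exact Finset.sum_nonneg fun x _ => by positivity
  calc ∑ ξ ∈ XiNT F N, ‖∑ f ∈ Mn F n, (dk k f : ℂ) * w f *
        ξ (AdjoinRoot.mk (X ^ (N + 1) : F[X]) f.reverse)‖ ^ 2
      ≤ ∑ ξ ∈ XiNT F N, kap k r n *
        ∑ x ∈ T, (dk k x.2 : ℝ) * t ^ x.1 * ‖AA k r N w (n - x.1) x.2 ξ‖ ^ 2 :=
        Finset.sum_le_sum fun ξ _ => hCS ξ
    _ = kap k r n * ∑ x ∈ T, (dk k x.2 : ℝ) * t ^ x.1 *
        ∑ ξ ∈ XiNT F N, ‖AA k r N w (n - x.1) x.2 ξ‖ ^ 2 := by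
        rw [← Finset.mul_sum, Finset.sum_comm]
        congr 1
        refine Finset.sum_congr rfl fun x _ => ?_
        rw [Finset.mul_sum]
    _ ≤ kap k r n * ∑ x ∈ T, (dk k x.2 : ℝ) * (t⁻¹) ^ x.1 *
        (qr F ^ n * phi r * uN F N * (N : ℝ) ^ C) := by
        refine mul_le_mul_of_nonneg_left (Finset.sum_le_sum fun x hx => ?_) hkap0
        have hxn : x.1 ≤ n := by
          have := (Finset.mem_sigma.1 hx).1
          have := Finset.mem_range.1 this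
          omega
        have h3 := inner_bound hUPR hORR hC N r w hN hr hd hw hper (n - x.1) x.2
        calc (dk k x.2 : ℝ) * t ^ x.1 * ∑ ξ ∈ XiNT F N, ‖AA k r N w (n - x.1) x.2 ξ‖ ^ 2
            ≤ (dk k x.2 : ℝ) * t ^ x.1 *
              (phi r * (qr F ^ (n - x.1) * uN F N * (N : ℝ) ^ C)) :=
              mul_le_mul_of_nonneg_left h3 (by positivity)
          _ = (dk k x.2 : ℝ) * (t ^ x.1 * qr F ^ (n - x.1)) *
              (phi r * uN F N * (N : ℝ) ^ C) := by ring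
          _ = (dk k x.2 : ℝ) * ((t⁻¹) ^ x.1 * qr F ^ n) *
              (phi r * uN F N * (N : ℝ) ^ C) := by
              congr 2
              have h4 : qr F ^ n = qr F ^ (n - x.1) * (t ^ x.1 * t ^ x.1) := by
                rw [← mul_pow, hss, ← pow_add, Nat.sub_add_cancel hxn]
              have h2 : (t⁻¹) ^ x.1 * t ^ x.1 = 1 := by
                rw [← mul_pow, inv_mul_cancel₀ hs.ne', one_pow]
              rw [h4]
              linear_combination (-(qr F ^ (n - x.1) * t ^ x.1)) * h2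
          _ = _ := by ring
    _ = kap k r n ^ 2 * (qr F ^ n * phi r * uN F N * (N : ℝ) ^ C) := by
        rw [← Finset.sum_mul, ← hkap]
        ring

end

end Pool.Agent.Helper99.FC
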